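import Pool.Agent.helper90.ZD.Defs

/-!
# Project zd (MP_4467b5_nt), part A: Poisson summation, quadratic and cubic sums

Paper: `/team-store/MP_4467b5_GM_helper90.md`, sections 1 (R2, R3) and 3. Every module proves one statement:
`theorem XX (h : YY_stmt) ... : XX_stmt` in the file `Pool/Agent/<seat>/ZD/XX.lean`, namespace `Pool.Agent.ZD`,
`import Pool.Agent.helper84.ZD.SpecA`. Any statement of this file may be a hypothesis (no circles). Auxiliary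
lemmas are prefixed `XX_`. No `sorry`, no double quotes.

Notation: `ee x = e(x) = exp (2 π i x)`; `exp (-((u * log y : ℝ) * I))` is `y^(-iu)`; `phi x = Phi (e^x) e^x`;
`kap x = 1/(1+x²)`; `MM M` = the nonzero integers `m`, `|m| ≤ M`; `EE X M x = X ∑ m ∈ MM M, e(-m X e^x)`.
-/

set_option autoImplicit false

open Complex MeasureTheory

namespace Pool.Agent.ZD

open Pool.Agent.helper84.DM Pool.Agent.helper78.ED Pool.Agent.DH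

/-! ## 1. Smooth functions, integration by parts -/

/-- Smooth functions with support in `[1/2, 64]`. -/
def SB (w : ℝ → ℂ) : Prop := ContDiff ℝ (⊤ : ℕ∞) w ∧ ∀ x : ℝ, (x < 1 / 2 ∨ 64 < x) → w x = 0

/-- **PHS** (short). uses: nothing. `Real.smoothTransition` is smooth, `0` for `x ≤ 0`, `1` for `1 ≤ x`,
with values in `[0, 1]` (`Real.smoothTransition.contDiff`, `.zero_of_nonpos`, `.one_of_one_le`, `.nonneg`,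
`.le_one`). -/
def PHS_stmt : Prop :=
  ContDiff ℝ (⊤ : ℕ∞) Phi ∧ SB (fun y => ((Phi y : ℝ) : ℂ)) ∧ (∀ y, 0 ≤ Phi y ∧ Phi y ≤ 1) ∧
  (∀ y, 1 ≤ y → y ≤ 32 → Phi y = 1) ∧ (∀ y, y ≤ 1 / 2 → Phi y = 0) ∧ (∀ y, 64 ≤ y → Phi y = 0)

/-- **SBO** (short). uses: nothing. Closure properties. The derivative of `w` vanishes on the open set
`x < 1/2 ∨ 64 < x` where `w = 0`. `w x / x` is smooth: near `x = 0` it is identically `0`, elsewhere it is a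
quotient. Third: `w` is bounded, continuous with compact support, so integrable. -/
def SBO_stmt : Prop := ∀ w : ℝ → ℂ, SB w →
  SB (deriv w) ∧ SB (fun x => (x : ℂ) * w x) ∧ SB (fun x => w x / (x : ℂ)) ∧
  Integrable w ∧ ∃ B : ℝ, 0 ≤ B ∧ ∀ x, ‖w x‖ ≤ B

/-- **IBU** (medium). uses: SBO_stmt. Decay of the Fourier transform of `w y y^(-iu)`.
Proof. Induction on `j`, for all `w` at the same time. `j = 0`: the integrand is bounded by `‖w y‖`.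
Step: `F y = w y * exp (-(u log y) I)` is differentiable everywhere (`F = 0` near `y ≤ 0`), with derivative
`(w' y - i u w y / y) exp (-(u log y) I)`, continuous with compact support. Integration by parts
(`∫ F' ee(-ξ y) = 2 π i ξ ∫ F ee(-ξ y)`, e.g. `Real.fourier_deriv` or
`MeasureTheory.integral_mul_deriv_eq_deriv_mul_of_integrable`), so
`2 π |ξ| ‖I_w‖ ≤ ‖I_(w')‖ + |u| ‖I_(w/y)‖`, and the induction hypothesis applies to `deriv w` and `w / y`. -/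
def IBU_stmt : Prop := ∀ (w : ℝ → ℂ), SB w → ∀ j : ℕ, ∃ C : ℝ, 0 ≤ C ∧ ∀ u ξ : ℝ,
  ‖∫ y : ℝ, w y * Complex.exp (-(((u * Real.log y : ℝ) : ℂ) * I)) * ee (-(ξ * y))‖ * |ξ| ^ j
    ≤ C * (1 + |u|) ^ j

/-- **IBZ** (medium). uses: SBO_stmt. Proof. Induction on `j`, for all `w`. `G y = y w y exp (-(u log y) I)` has
compact support, so `0 = ∫ G' = ∫ (w + y w' - i u w) exp (-(u log y) I)`, i.e.
`|u| ‖J_w‖ = ‖J_v‖` with `v = deriv (fun y => y * w y) = w + y w'` (`SB`). -/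
def IBZ_stmt : Prop := ∀ (w : ℝ → ℂ), SB w → ∀ j : ℕ, ∃ C : ℝ, 0 ≤ C ∧ ∀ u : ℝ,
  ‖∫ y : ℝ, w y * Complex.exp (-(((u * Real.log y : ℝ) : ℂ) * I))‖ * |u| ^ j ≤ C

/-- **RD** (medium). uses: SBO_stmt. Proof. `A s = f (α s) g (β s) h s` is `C²` with compact support
(`⊂ [1/2, 64]`). `‖∫ A ee‖ ≤ ∫ ‖A‖ ≤ C₀`, and two integrations by parts give
`4 π² l² ‖∫ A ee‖ ≤ ∫ ‖A''‖ ≤ C₂`; `A''` is the sum of `9` products, each bounded by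
`e^10 B B' (‖h‖ + ‖h'‖ + ‖h''‖)`. Hence `(1 + l²) ‖∫ A ee‖ ≤ C₀ + C₂`. -/
def RD_stmt : Prop := ∀ f g h : ℝ → ℂ, ContDiff ℝ 2 f → ContDiff ℝ 2 g → SB h →
  (∃ B : ℝ, ∀ x, ‖f x‖ ≤ B ∧ ‖deriv f x‖ ≤ B ∧ ‖deriv (deriv f) x‖ ≤ B) →
  (∃ B : ℝ, ∀ x, ‖g x‖ ≤ B ∧ ‖deriv g x‖ ≤ B ∧ ‖deriv (deriv g) x‖ ≤ B) →
  ∃ C : ℝ, 0 ≤ C ∧ ∀ α β l : ℝ, |α| ≤ Real.exp 5 → |β| ≤ Real.exp 5 →
    ‖∫ s : ℝ, f (α * s) * g (β * s) * h s * ee (-(l * s))‖ ≤ C * kap l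

/-! ## 2. Poisson summation -/

/-- The Fourier transform of `Phi y * y^(-iu)`. -/
noncomputable def HH (u ξ : ℝ) : ℂ :=
  ∫ y : ℝ, ((Phi y : ℝ) : ℂ) * Complex.exp (-(((u * Real.log y : ℝ) : ℂ) * I)) * ee (-(ξ * y))

/-- **CHX** (medium). uses: PHS_stmt. Proof. First (for arbitrary `g`): restrict to `y > 0` (`Phi y = 0` for `y ≤ 0`) and
substitute `y = e^x` (`MeasureTheory.integral_image_eq_integral_abs_deriv_smul` with the injective function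
`Real.exp`, range `Ioi 0`); `phi x = Phi (e^x) e^x`. Second: `g y = exp (-(u log y) I) ee(-ξ y)`, `log (e^x) = x`.
Third: insert the definitions of `Bs`, `EE`, exchange the finite sum and the integral (continuous, compact
support). -/
def CHX_stmt : Prop :=
  (∀ g : ℝ → ℂ, ∫ y : ℝ, ((Phi y : ℝ) : ℂ) * g y =
    ∫ x : ℝ, ((phi x : ℝ) : ℂ) * g (Real.exp x)) ∧
  (∀ u ξ : ℝ, HH u ξ =
    ∫ x : ℝ, ((phi x : ℝ) : ℂ) * Complex.exp (-(((u * x : ℝ) : ℂ) * I)) * ee (-(ξ * Real.exp x))) ∧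
  (∀ (X : ℝ) (M : ℕ) (u : ℝ), Bs X M u = (X : ℂ) * ∑ m ∈ MM M, HH u ((m : ℝ) * X))

/-- **POI** (LONG). uses: PHS_stmt, IBU_stmt. Poisson summation.
Proof. `g y = Phi (y/X) exp (-(u log y) I)`, continuous with compact support; `g k = 0` for integers
`k ≤ 0` and `k > 64 X`, and `g k = Phi (k/X) k^(-iu)` for `k ≥ 1`. Its Fourier transform at `m` is (substitute
`y = X v`, `log y = log X + log v`) `X exp (-(u log X) I) HH u (m X)`, which is summable by IBU (`w = Phi`,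
`j = 2`). `Real.tsum_eq_tsum_fourier_of_rpow_decay_of_summable` (or the Schwartz version). -/
def POI_stmt : Prop := ∀ X u : ℝ, 0 < X → Summable (fun m : ℤ => HH u ((m : ℝ) * X)) ∧
  BX X u = Complex.exp (-(((u * Real.log X : ℝ) : ℂ) * I)) * ((X : ℂ) * ∑' m : ℤ, HH u ((m : ℝ) * X))

/-- **PR2** (medium). uses: POI_stmt, CHX_stmt, IBU_stmt, IBZ_stmt, PHS_stmt. The Poisson formula (R2).
Proof. `j = ⌈(A + 3)/δ⌉₊ + 2`. By POI and CHX the difference is at most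
`X (‖HH u 0‖ + ∑_(|m| > M) ‖HH u (m X)‖)`. IBZ: `‖HH u 0‖ ≤ C |u|^(-j) ≤ C T^(-δ j)`. IBU:
`‖HH u (m X)‖ ≤ C (2T)^j (|m| X)^(-j)`, and `∑_(m ≥ M+1) m^(-j) ≤ 2 (M+1)^(1-j) ≤ 2 (T^(1+δ)/X)^(1-j)`; total
`≤ C 2^j T^j X^(1-j) T^((1+δ)(1-j)) X^(j-1) = C 2^j T^(1+δ-δj) ≤ C' T^(-A)`. -/
def PR2_stmt : Prop := ∀ A δ : ℝ, 0 < A → 0 < δ → δ ≤ 1 / 10 → ∃ C T₀ : ℝ, 0 < C ∧
  ∀ T : ℝ, T₀ ≤ T → ∀ X : ℝ, T ^ (1 / 2 : ℝ) ≤ X → X ≤ T ^ (1 + δ) → ∀ u : ℝ, T ^ δ ≤ |u| → |u| ≤ T →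
  ∀ M : ℕ, T ^ (1 + δ) / X ≤ (M : ℝ) + 1 →
    ‖BX X u - Complex.exp (-(((u * Real.log X : ℝ) : ℂ) * I)) * Bs X M u‖ ≤ C * T ^ (-A)

/-- **BSB** (short/medium). uses: CHX_stmt, PHS_stmt, IBU_stmt. Trivial bounds.
Proof. `‖BX X u‖ ≤ ⌊64 X⌋₊`. `‖HH u ξ‖ ≤ ∫ Phi ≤ 64`, `MM M` has `2 M` elements. `u = 0`: IBU with
`j = ⌈2 A⌉₊ + 3`: `‖HH 0 (m X)‖ ≤ C (|m| X)^(-j)`, so
`‖Bs X M 0‖ ≤ X ∑ C |m|^(-2) X^(-j) ≤ 4 C X^(1-j)`, `X ≥ T^(1/2)`, `T ≥ 1`. -/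
def BSB_stmt : Prop := (∀ X u : ℝ, 0 ≤ X → ‖BX X u‖ ≤ 64 * X) ∧
  (∀ (X : ℝ) (M : ℕ) (u : ℝ), 0 ≤ X → ‖Bs X M u‖ ≤ 128 * X * M) ∧
  ∀ A : ℝ, 0 < A → ∃ C : ℝ, 0 < C ∧ ∀ T X : ℝ, 1 ≤ T → T ^ (1 / 2 : ℝ) ≤ X → ∀ M : ℕ,
    ‖Bs X M 0‖ ≤ C * T ^ (-A)

/-! ## 3. The two identities and the two kernels -/

/-- **QDI** (medium/long). uses: nothing. Quadratic identity.
Proof. Write `b u = ∫ G x e^(-iux) dx`, `‖b u‖² = b u * conj (b u)`, a double integral (`G` is continuous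
with compact support). `∑ t t', e^(-i(t-t')(x-y)) = ‖rho W (x-y)‖²` (real, even). Substitute `x = y + a` and
exchange the integrals (Fubini: bounded, compact support, continuous). -/
def QDI_stmt : Prop := ∀ (G : ℝ → ℂ), Continuous G → (∀ x, 5 < |x| → G x = 0) → ∀ W : Finset ℝ,
  ((∑ t ∈ W, ∑ t' ∈ W,
      ‖∫ x : ℝ, G x * Complex.exp (-((((t - t') * x : ℝ) : ℂ) * I))‖ ^ 2 : ℝ) : ℂ) =
    ∫ a : ℝ, ((‖rho W a‖ ^ 2 : ℝ) : ℂ) * ∫ y : ℝ, G (y + a) * (starRingEnd ℂ) (G y)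

/-- **CDI** (LONG). uses: nothing. Cubic identity.
Proof. The product of the three integrals is a triple integral over `x₁, x₂, x₃` of
`G x₁ G x₂ G x₃ e^(-i(t₁-t₂)x₁ - i(t₂-t₃)x₂ - i(t₃-t₁)x₃)`; the exponent is
`i t₁ (x₃-x₁) + i t₂ (x₁-x₂) + i t₃ (x₂-x₃)`, so the sum over `t₁, t₂, t₃` gives
`rho (x₃-x₁) rho (x₁-x₂) rho (x₂-x₃)`. Substitute `x₁ = s + a`, `x₂ = s + b`, `x₃ = s` (translations) and
exchange the integrals (everything is continuous with compact support). -/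
def CDI_stmt : Prop := ∀ (G : ℝ → ℂ), Continuous G → (∀ x, 5 < |x| → G x = 0) → ∀ W : Finset ℝ,
  ∀ F : ℝ → ℂ, (∀ u, F u = ∫ x : ℝ, G x * Complex.exp (-(((u * x : ℝ) : ℂ) * I))) →
  ∑ t₁ ∈ W, ∑ t₂ ∈ W, ∑ t₃ ∈ W, F (t₁ - t₂) * F (t₂ - t₃) * F (t₃ - t₁) =
    ∫ a : ℝ, ∫ b : ℝ, rho W (-a) * rho W (a - b) * rho W b *
      ∫ s : ℝ, G (s + a) * G (s + b) * G s

/-- The function `phi x * EE X M x`. -/
noncomputable def GE (X : ℝ) (M : ℕ) (x : ℝ) : ℂ := ((phi x : ℝ) : ℂ) * EE X M x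

/-- **GEC** (short). uses: PHS_stmt. `phi x ≠ 0` only for `1/2 ≤ e^x ≤ 64`, so `|x| < 5` (`e^5 > 64`:
`Real.exp_one_gt_d9`). -/
def GEC_stmt : Prop := ∀ (X : ℝ) (M : ℕ), Continuous (GE X M) ∧ (∀ x, 5 < |x| → GE X M x = 0) ∧
  ∀ u : ℝ, Bs X M u = ∫ x : ℝ, GE X M x * Complex.exp (-(((u * x : ℝ) : ℂ) * I))

/-- **K2B** (medium). uses: CHX_stmt, PHS_stmt, RD_stmt, SBO_stmt, GEC_stmt. The quadratic kernel.
Proof. If the integrand is not `0` for some `y` then `e^y, e^(y+a) ∈ [1/2, 64]`, `e^|a| ≤ 128 < e^5`.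
Otherwise multiply out: the `(m, m')` term is
`X² ∫ phi (y+a) phi y ee(-(X (m e^a - m') e^y)) dy`; by CHX (`phi y * g (e^y)`, `phi (y+a) = Phi (e^a s) e^a s`,
`s = e^y`) it is `X² e^a ∫ Phi (e^a s) (s Phi s) ee(-(X (m e^a - m')) s) ds`, and RD with `f = Phi`, `g = 1`,
`h s = s Phi s`, `α = e^a`, `β = 0`. (`X, M ≥ 0` arbitrary.) -/
def K2B_stmt : Prop := ∃ C : ℝ, 0 < C ∧ ∀ (X : ℝ) (M : ℕ) (a : ℝ),
  (5 < |a| → ∫ y : ℝ, GE X M (y + a) * (starRingEnd ℂ) (GE X M y) = 0) ∧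
  ‖∫ y : ℝ, GE X M (y + a) * (starRingEnd ℂ) (GE X M y)‖
    ≤ C * X ^ 2 * ∑ m ∈ MM M, ∑ m' ∈ MM M, kap (X * ((m : ℝ) * Real.exp a - m'))

/-- **K3B** (medium). uses: CHX_stmt, PHS_stmt, RD_stmt, SBO_stmt, GEC_stmt. The cubic kernel.
Proof. As K2B. The product of the three exponentials is `ee(-(X (m₁ e^a + m₂ e^b + m₃) e^s))`, and
`phi (s+a) phi (s+b) phi s ds = e^(a+b) Phi (e^a y) Phi (e^b y) (y² Phi y) dy`, `y = e^s`; RD with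
`f = g = Phi`, `h y = y² Phi y`; `e^(a+b) ≤ e^10`. -/
def K3B_stmt : Prop := ∃ C : ℝ, 0 < C ∧ ∀ (X : ℝ) (M : ℕ) (a b : ℝ), 0 ≤ X →
  ((5 < |a| ∨ 5 < |b| ∨ 5 < |a - b|) → ∫ s : ℝ, GE X M (s + a) * GE X M (s + b) * GE X M s = 0) ∧
  ‖∫ s : ℝ, GE X M (s + a) * GE X M (s + b) * GE X M s‖
    ≤ C * X ^ 3 * ∑ m₁ ∈ MM M, ∑ m₂ ∈ MM M, ∑ m₃ ∈ MM M,
        kap (X * ((m₁ : ℝ) * Real.exp a + (m₂ : ℝ) * Real.exp b + m₃))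

/-! ## 4. The quadratic sum -/

/-- **QZ0** (medium). uses: nothing. (Q0) of the paper.
Proof. `∫_(-5)^5 ‖rho‖² ≤ e^25 ∫ ‖rho x‖² e^(-x²) = e^25 ∑ t t', ∫ e^(i(t-t')x - x²) dx
= e^25 √π ∑ t t', e^(-(t-t')²/4)` (Gaussian Fourier transform, `integral_cexp_neg_mul_sq_add_real_mul_I` or
`fourierIntegral_gaussian`), and for fixed `t` the sum over `t'` is `≤ 2 ∑_(k ≥ 0) e^(-k²/4) ≤ C`: at most one
`t' ≥ t` lies in each interval `[t+k, t+k+1)`, the same on the left. -/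
def QZ0_stmt : Prop := ∃ C : ℝ, 0 < C ∧ ∀ W : Finset ℝ,
  (∀ t ∈ W, ∀ t' ∈ W, t ≠ t' → 1 ≤ |t - t'|) →
    ∫ x in (-5 : ℝ)..5, ‖rho W x‖ ^ 2 ≤ C * (W.card : ℝ)

/-- **KAPF** (medium). uses: nothing. The Fourier transform of `kap`.
Proof. `f x = e^(-|x|)` is continuous and integrable, with Fourier transform
`2/(1 + (2πξ)²)` (two elementary integrals), which is integrable; Fourier inversion
(`MeasureTheory.Integrable.fourierInv_fourier_eq`). Rescale. -/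
def KAPF_stmt : Prop := ∀ κ τ : ℝ, 0 < κ →
  Integrable (fun a : ℝ => kap (κ * a)) ∧
  ∫ a : ℝ, Complex.exp (((τ * a : ℝ) : ℂ) * I) * ((kap (κ * a) : ℝ) : ℂ)
    = ((Real.pi / κ * Real.exp (-(|τ| / κ)) : ℝ) : ℂ)

/-- **NPM** (medium). uses: KAPF_stmt. Near pairs.
Proof. Enlarge `[-5, 5]` to the line (the integrand is nonnegative, bounded by `W.card² kap`), insert
`‖rho W a‖² = ∑ t t', e^(i(t-t')a)` and KAPF with `a → a + log m' - log m`: the left side is at most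
`∑ t t', (π/κ) e^(-|t-t'|/κ) ∑ m m', e^(i(t-t')(log m' - log m))`, and the inner sum is
`PL A (t-t') * conj (PL B (t-t'))`. -/
def NPM_stmt : Prop := ∀ (W : Finset ℝ) (κ : ℝ) (A B : Finset ℕ), 0 < κ → 0 ∉ A → 0 ∉ B →
  ∑ m ∈ A, ∑ m' ∈ B,
    ∫ a in (-5 : ℝ)..5, ‖rho W a‖ ^ 2 * kap (κ * (a - (Real.log m' - Real.log m)))
    ≤ Real.pi / κ * ∑ t ∈ W, ∑ t' ∈ W, ‖PL A (t - t')‖ * ‖PL B (t - t')‖

/-- **GEO** (short). uses: nothing. Elementary inequalities.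
Proof. (1) `m e^a - m' = √(m m') e^(a/2) 2 sinh ((a-z)/2)`, `z = log m' - log m`, `|2 sinh (x/2)| ≥ |x|`,
`e^(a/2) ≥ e^(-5/2) ≥ e^(-5)`, `√(m m') ≥ h`. (2) `e^5 < 150 < 512/3`: if `m' ≥ 512 m` then `m e^a ≤ m'/3`, if `m ≥ 512 m'`
then `m' ≤ m e^a/3`. (3) clear. -/
def GEO_stmt : Prop := ∀ (m m' : ℕ) (a h : ℝ), 1 ≤ m → 1 ≤ m' → |a| ≤ 5 → 0 ≤ h →
  (h ≤ m → h ≤ m' → Real.exp (-5) * h * |a - (Real.log m' - Real.log m)| ≤ |(m : ℝ) * Real.exp a - m'|) ∧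
  ((512 * m ≤ m' ∨ 512 * m' ≤ m) →
    Real.exp (-5) / 4 * ((m : ℝ) + m') ≤ |(m : ℝ) * Real.exp a - m'|) ∧
  Real.exp (-5) * ((m : ℝ) + m') ≤ |(m : ℝ) * Real.exp a + m'|

/-- **QWF** (short). uses: nothing. `x^(-iγ)` for natural numbers is an exponential; multiply out
(compare `helper13/DH/QID.lean`, `helper28/DH/QTR.lean`). Second: the terms `x = y` are `W.card²`, there are
`7 L`. -/
def QWF_stmt : Prop := ∀ (W : Finset ℝ) (L : ℕ),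
  QW W L = ∑ x ∈ IL L, ∑ y ∈ IL L, ‖rho W (Real.log x - Real.log y)‖ ^ 2 ∧
  (L : ℝ) * (W.card : ℝ) ^ 2 ≤ QW W L

/-- **MONW** (medium). uses: nothing. Monotonicity, `W` form.
Proof. Apply the library theorem `Pool.Agent.DH.MONO` (`helper24/DH/MONO.lean`) to the image `Z` of `W` under
`t ↦ t * I` (injective), with `RR Z 1 x y = rho W (log y - log x)`; or copy its proof. -/
def MONW_stmt : Prop := ∀ (W : Finset ℝ) (Y L : ℕ) (B : Finset ℕ) (D : ℝ), 1 ≤ Y → Y ≤ L →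
  (∀ n ∈ B, Y ≤ n ∧ n < 2 * Y) → (∀ k ∈ IL L, (d k : ℝ) ≤ D) →
  (L : ℝ) * ∑ t ∈ W, ∑ t' ∈ W, ‖PL B (t - t')‖ ^ 2 ≤ (Y : ℝ) * D * QW W L

/-- **BLK** (medium). uses: NPM_stmt, GEO_stmt, MONW_stmt. A pair of dyadic blocks.
Proof. `h = min (2^i) (2^j) ≥ 2^(max i j)/512`. For `m ∈ [2^i, 2^(i+1))`, `m' ∈ [2^j, 2^(j+1))`, `|a| ≤ 5`:
`kap (X (m e^a - m')) ≤ kap (X e^(-5) h (a - z))` (GEO (1), `kap` is decreasing in `|x|`). NPM with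
`κ = X e^(-5) h`, then `‖PL A‖ ‖PL B‖ ≤ (‖PL A‖² + ‖PL B‖²)/2` and MONW with `Y = 2^i`, `Y = 2^j` (`≤ M ≤ L` if the
block is nonempty). Total `≤ (π e^5/(X h)) 2^(max i j) D QW/L ≤ 512 π e^5 D QW/(X L)`. -/
def BLK_stmt : Prop := ∃ C : ℝ, 0 < C ∧ ∀ (W : Finset ℝ) (X D : ℝ) (M L i j : ℕ), 1 ≤ X → 1 ≤ L →
  M ≤ L → 0 ≤ D → (∀ k ∈ IL L, (d k : ℝ) ≤ D) → i ≤ j + 9 → j ≤ i + 9 →
  (L : ℝ) * X * ∑ m ∈ (Finset.Icc 1 M).filter (fun m => 2 ^ i ≤ m ∧ m < 2 ^ (i + 1)),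
    ∑ m' ∈ (Finset.Icc 1 M).filter (fun m => 2 ^ j ≤ m ∧ m < 2 ^ (j + 1)),
      ∫ a in (-5 : ℝ)..5, ‖rho W a‖ ^ 2 * kap (X * ((m : ℝ) * Real.exp a - m'))
    ≤ C * D * QW W L

/-- **PRS** (medium). uses: BLK_stmt, GEO_stmt. All pairs of natural numbers `m, m' ≤ M`.
Proof. Decompose `Icc 1 M` into the blocks `i = Nat.log 2 m ≤ Nat.log 2 M =: J`. Pairs of blocks with
`|i - j| ≤ 9`: BLK, at most `19 (J+1)` pairs. Otherwise `512 m ≤ m'` or `512 m' ≤ m`, so by GEO (2)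
`kap (X z) ≤ 1/(X z)² ≤ 16 e^10/(X² (m+m')²)`; the same for the terms with `+` (GEO (3)); and
`∑ m m' ≤ M, 1/(m+m')² ≤ ∑ m, 1/m ≤ 1 + log M`. -/
def PRS_stmt : Prop := ∃ C : ℝ, 0 < C ∧ ∀ (W : Finset ℝ) (X D : ℝ) (M L : ℕ), 1 ≤ X → 1 ≤ L → 1 ≤ M →
  M ≤ L → 1 ≤ D → (∀ k ∈ IL L, (d k : ℝ) ≤ D) →
  (L : ℝ) * X ^ 2 * ∑ m ∈ Finset.Icc 1 M, ∑ m' ∈ Finset.Icc 1 M,
      ∫ a in (-5 : ℝ)..5, ‖rho W a‖ ^ 2 *
        (kap (X * ((m : ℝ) * Real.exp a - m')) + kap (X * ((m : ℝ) * Real.exp a + m')))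
    ≤ C * (1 + Real.log M) * (X * D * QW W L + L * ∫ a in (-5 : ℝ)..5, ‖rho W a‖ ^ 2)

/-- **RFS** (medium). uses: QDI_stmt, GEC_stmt, K2B_stmt, PRS_stmt, QZ0_stmt, QWF_stmt.
Proof. By QDI (with `G = GE X M`), GEC and K2B: `∑ ‖Bs (t-t')‖² ≤ ∫_(|a| ≤ 5) ‖rho‖² ‖kernel‖ ≤
C X² ∑ m m' ∈ MM M, ∫_(-5)^5 ‖rho‖² kap (X (m e^a - m'))`. The four sign patterns of `(m, m')` (and `kap` even) give
twice the two terms of PRS. `L ∫ ‖rho‖² ≤ C L W.card ≤ C QW W L` (`W.card ≤ W.card²`). -/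
def RFS_stmt : Prop := ∃ C : ℝ, 0 < C ∧ ∀ (W : Finset ℝ) (X D : ℝ) (M L : ℕ),
  (∀ t ∈ W, ∀ t' ∈ W, t ≠ t' → 1 ≤ |t - t'|) → 1 ≤ X → 1 ≤ L → 1 ≤ M → M ≤ L → 1 ≤ D →
  (∀ k ∈ IL L, (d k : ℝ) ≤ D) →
  (L : ℝ) * ∑ t ∈ W, ∑ t' ∈ W, ‖Bs X M (t - t')‖ ^ 2 ≤ C * (1 + Real.log M) * X * D * QW W L

/-- **CRD** (short). uses: nothing. A set in `[T, 2T]` with distances `≥ 1` has at most `T + 1` elements. -/
def CRD_stmt : Prop := ∀ (T : ℝ) (W : Finset ℝ), 1 ≤ T → (∀ t ∈ W, T ≤ t ∧ t ≤ 2 * T) →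
  (∀ t ∈ W, ∀ t' ∈ W, t ≠ t' → 1 ≤ |t - t'|) → (W.card : ℝ) ≤ T + 1

/-- **R3M** (medium). uses: RFS_stmt, PR2_stmt, QWF_stmt, CRD_stmt; library: `divisor_bound`. The theorem
`R3M ... : R3_stmt` (statement in `helper90/ZD/Defs.lean`).
Proof. `M = ⌊T^(1+δ)/X⌋₊`, `1 ≤ M ≤ L`. For `t ≠ t'`, `u = t - t'`: `T^δ ≤ |u| ≤ T`, PR2 with `A = 1`:
`‖BX X u‖² ≤ 2 ‖Bs X M u‖² + 2 C²`. So the left side is at most
`2 L ∑ ‖Bs‖² + 2 C² L W.card² ≤ 2 L ∑ ‖Bs‖² + 2 C² QW`. RFS with `D = C' (8 T^6)^(ε/12)`,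
`1 + log M ≤ C T^(ε/4)`. -/
def R3M_stmt : Prop := R3_stmt

/-! ## 5. The cubic sum -/

/-- The double integral of the strip lemma. -/
noncomputable def JJ (W : Finset ℝ) (X : ℝ) (l₁ l₂ l₃ : ℤ) : ℝ :=
  ∫ a in (-5 : ℝ)..5, ∫ b in (-5 : ℝ)..5, ‖rho W a‖ ^ (3 / 2 : ℝ) * ‖rho W b‖ ^ (3 / 2 : ℝ) *
    kap (X * ((l₁ : ℝ) * Real.exp a + (l₂ : ℝ) * Real.exp b + l₃))

/-- **SYM** (LONG). uses: nothing. Symmetrisation. The double integral is over the hexagon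
`|a|, |b|, |a - b| ≤ 5` (indicator function).
Proof. `p = ‖rho a‖, q = ‖rho b‖, r = ‖rho (a-b)‖`: `p q r ≤ ((pq)^(3/2) + (qr)^(3/2) + (rp)^(3/2))/3`. The first term is
at most `JJ m₁ m₂ m₃`. Second: `a = b + w`, then `b = -x`:
`m₁ e^a + m₂ e^b + m₃ = e^(-x) (m₁ e^w + m₃ e^x + m₂)`, and `kap (e^(-x) y) ≤ e^10 kap y` for `|x| ≤ 5`, `‖rho (-x)‖ = ‖rho x‖`;
the region is contained in `|w|, |x| ≤ 5`: at most `e^10 JJ m₁ m₃ m₂`. Third: `b = a + w`, `a = -x`: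
`= e^(-x) (m₂ e^w + m₃ e^x + m₁)`, at most `e^10 JJ m₂ m₃ m₁`. (`0 ≤ X`.) -/
def SYM_stmt : Prop := ∀ (W : Finset ℝ) (X : ℝ) (m₁ m₂ m₃ : ℤ), 0 ≤ X →
  ∫ a in (-5 : ℝ)..5, ∫ b in (-5 : ℝ)..5, (if |a - b| ≤ 5 then
    ‖rho W a‖ * ‖rho W b‖ * ‖rho W (a - b)‖ *
      kap (X * ((m₁ : ℝ) * Real.exp a + (m₂ : ℝ) * Real.exp b + m₃)) else 0)
    ≤ Real.exp 10 * (JJ W X m₁ m₂ m₃ + JJ W X m₁ m₃ m₂ + JJ W X m₂ m₃ m₁)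

/-- **AL1** (medium). uses: CDI_stmt, GEC_stmt, K3B_stmt, SYM_stmt.
Proof. CDI with `G = GE X M`, `F = Bs X M`; take norms inside; the kernel vanishes outside the hexagon
`|a|, |b|, |a-b| ≤ 5` and is bounded by K3B; SYM for every `(m₁, m₂, m₃)`; the three sums over all
`(m₁, m₂, m₃)` of `JJ` with permuted arguments are equal. -/
def AL1_stmt : Prop := ∃ C : ℝ, 0 < C ∧ ∀ (W : Finset ℝ) (X : ℝ) (M : ℕ), 0 ≤ X →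
  ‖∑ t₁ ∈ W, ∑ t₂ ∈ W, ∑ t₃ ∈ W, Bs X M (t₁ - t₂) * Bs X M (t₂ - t₃) * Bs X M (t₃ - t₁)‖
    ≤ C * X ^ 3 * ∑ m₁ ∈ MM M, ∑ m₂ ∈ MM M, ∑ m₃ ∈ MM M, JJ W X m₁ m₂ m₃

/-- The Poisson kernel `∑ j, e^(-|j|/X) e(jα)`. -/
noncomputable def PK (X α : ℝ) : ℝ :=
  ∑' j : ℤ, Real.exp (-(|(j : ℝ)| / X)) * Real.cos (2 * Real.pi * (j : ℝ) * α)

/-- **STR** (medium). uses: nothing. Strip lemma.
Proof. `r = e^(-1/X)`; geometric series: `PK X α = (1-r²)/((1-r)² + 4 r sin²(πα))`. Let `n₀` be the nearest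
integer to `-α`, `β = α + n₀`, `|β| ≤ 1/2`. `1 - r ≤ 1/X`, `1 - r² ≥ 1 - r ≥ 1/(2X)`, `|sin πα| ≤ π |β|`: so
`PK X α ≥ (1/(2X))/(X^(-2) + 4π²β²) ≥ (X/80) kap (Xβ)`. On the other side `∑_(m ∈ S) kap (X(m+α)) ≤ kap (Xβ) +
∑_(k ≠ 0) 4/(X²k²) ≤ kap (Xβ) + 14/X² ≤ 20 kap (Xβ)` (`1 + X²β² ≤ 5X²/4`). -/
def STR_stmt : Prop := ∃ C : ℝ, 0 < C ∧ ∀ (X α : ℝ) (S : Finset ℤ), 1 ≤ X →
  ∑ m ∈ S, kap (X * ((m : ℝ) + α)) ≤ C / X * PK X α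

/-- `∫ f(a) e(n e^a) da` over `[-5, 5]`. -/
noncomputable def cf (f : ℝ → ℝ) (n : ℤ) : ℂ :=
  ∫ a in (-5 : ℝ)..5, ((f a : ℝ) : ℂ) * ee ((n : ℝ) * Real.exp a)

/-- **SPK** (medium/long). uses: nothing. Integration of the Poisson kernel.
Proof. `cos (2πj(m₁e^a + m₂e^b)) = Re (ee(j m₁ e^a) ee(j m₂ e^b))`. For fixed `j` the sum over `m₁, m₂` of the double
integrals is `Re (F_j²)`, `F_j = ∑ m ∈ MM M, cf f (j m)`, which is real because `MM M` is symmetric and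
`conj (cf f n) = cf f (-n)`; so it is `‖F_j‖²`. Exchange of `∑'` with the integrals: the terms are bounded by
`e^(-|j|/X) ‖f‖_∞²`, which is summable (`‖F_j‖ ≤ 2 M · 10 ‖f‖_∞`). -/
def SPK_stmt : Prop := ∀ (f : ℝ → ℝ) (X : ℝ) (M : ℕ), Continuous f → 1 ≤ X →
  Summable (fun j : ℤ => Real.exp (-(|(j : ℝ)| / X)) * ‖∑ m ∈ MM M, cf f (j * m)‖ ^ 2) ∧
  ∑ m₁ ∈ MM M, ∑ m₂ ∈ MM M, ∫ a in (-5 : ℝ)..5, ∫ b in (-5 : ℝ)..5,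
      f a * f b * PK X ((m₁ : ℝ) * Real.exp a + (m₂ : ℝ) * Real.exp b)
    = ∑' j : ℤ, Real.exp (-(|(j : ℝ)| / X)) * ‖∑ m ∈ MM M, cf f (j * m)‖ ^ 2

/-- **BES** (medium). uses: nothing. Bessel inequality.
Proof. `Q = ∑ n ∈ S, ‖cf f n‖² = ∫ f(a) P(e^a) da`, `P y = ∑ n ∈ S, conj (cf f n) ee(n y)`. Cauchy–Schwarz:
`Q² ≤ (∫ f²) ∫_(-5)^5 ‖P(e^a)‖² da`, and `∫_(-5)^5 ‖P(e^a)‖² da ≤ e^5 ∫_0^150 ‖P y‖² dy = 150 e^5 Q` (substitution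
`y = e^a`; orthogonality of the `ee(n y)` on `[0, 150]`). -/
def BES_stmt : Prop := ∀ (f : ℝ → ℝ) (S : Finset ℤ), Continuous f →
  ∑ n ∈ S, ‖cf f n‖ ^ 2 ≤ 150 * Real.exp 5 * ∫ a in (-5 : ℝ)..5, f a ^ 2

/-- **DVS** (medium). uses: BES_stmt; library: `divisor_bound`.
Proof. `J` a finite set of nonzero integers. Cauchy–Schwarz: `‖∑ m ∈ MM M, cf f (j m)‖² ≤ 2 M ∑ m, ‖cf f (j m)‖²`.
Group the pairs `(j, m)` by `n = j m ≠ 0`: there are at most `2 d(|n|)` pairs, and `|j| ≥ |n|/M`, so the sum is at most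
`2 M ∑ n, 2 d(|n|) e^(-|n|/(M X)) ‖cf f n‖²`; `d(|n|) ≤ C |n|^ε`, `x^ε e^(-x) ≤ 1` (`ε ≤ 1`), so
`d(|n|) e^(-|n|/(MX)) ≤ C (M X)^ε`. BES. (For `ε > 1` use `ε = 1`.) -/
def DVS_stmt : Prop := ∀ ε : ℝ, 0 < ε → ∃ C : ℝ, 0 < C ∧ ∀ (f : ℝ → ℝ) (X : ℝ) (M : ℕ) (J : Finset ℤ),
  Continuous f → 1 ≤ X → 1 ≤ M → 0 ∉ J →
  ∑ j ∈ J, Real.exp (-(|(j : ℝ)| / X)) * ‖∑ m ∈ MM M, cf f (j * m)‖ ^ 2
    ≤ C * (M * X) ^ ε * M * ∫ a in (-5 : ℝ)..5, f a ^ 2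

/-- **AL2** (medium). uses: AL1_stmt, STR_stmt, SPK_stmt, DVS_stmt, QZ0_stmt.
Proof. `f a = ‖rho W a‖^(3/2)` is continuous. Sum over `m₃ ∈ MM M` inside the integrals, STR with
`α = m₁ e^a + m₂ e^b`: `∑ JJ ≤ (C/X) ∑ m₁ m₂ ∫ ∫ f f PK = (C/X) ∑' j, e^(-|j|/X) ‖F_j‖²` (SPK). `j = 0`:
`‖F_0‖ ≤ 2 M ∫ f`, and `(∫ f)² ≤ C (∫ ‖rho‖²)^(3/2) ≤ C' W.card^(3/2)` (Hoelder on `[-5,5]`, QZ0). `j ≠ 0`: every finite
partial sum is bounded by DVS, `f² = ‖rho‖³`. -/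
def AL2_stmt : Prop := ∀ ε : ℝ, 0 < ε → ∃ C : ℝ, 0 < C ∧ ∀ (W : Finset ℝ) (X : ℝ) (M : ℕ),
  (∀ t ∈ W, ∀ t' ∈ W, t ≠ t' → 1 ≤ |t - t'|) → 1 ≤ X → 1 ≤ M →
  ‖∑ t₁ ∈ W, ∑ t₂ ∈ W, ∑ t₃ ∈ W, Bs X M (t₁ - t₂) * Bs X M (t₂ - t₃) * Bs X M (t₃ - t₁)‖
    ≤ C * (M * X) ^ ε * X ^ 2 * ((M : ℝ) ^ 2 * (W.card : ℝ) ^ (3 / 2 : ℝ) + M * q3 W)

/-- **CUBM** (medium). uses: AL2_stmt, PR2_stmt, BSB_stmt, CRD_stmt. The theorem `CUBM ... : CUB_stmt` (statement in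
`helper90/ZD/Defs.lean`).
Proof. `W` empty is trivial. `M = ⌊T^(1+δ)/X⌋₊ ≥ 1`, `X M ≤ T^(1+δ) ≤ T²`. For distinct `t₁, t₂, t₃` all differences
`u₁, u₂, u₃` satisfy `T^δ ≤ |u| ≤ T`, `u₁ + u₂ + u₃ = 0`, so the three phases `exp (-(u_j log X) I)` multiply to `1` and by
PR2 (`A = 10`) and BSB the product of the three `BX` differs from the product of the three `Bs` by at most
`C T^4 T^(-10)`; at most `(T+1)³` triples. The triples which are not distinct contribute at most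
`(T+1)³ C T^4 T^(-10)` (BSB, one factor is `Bs X M 0`; if `t₁ = t₂`, etc.). So
`‖CS X W‖ ≤ ‖∑ all‖ + C`, AL2 with `ε/2`: `(M X)^(ε/2) ≤ T^ε`, `X² M² ≤ T^(2+2δ)`, `X² M ≤ X T^(1+δ)`,
and `C ≤ C T² W.card^(3/2)`. -/
def CUBM_stmt : Prop := CUB_stmt

end Pool.Agent.ZD
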